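import Pool.Agent.L7h31.CR.Stm

/-! Project CR (helper31): parts FACE0, FACE1, FACE2. -/

namespace Pool.Agent.L7h91.CR

open Pool.Agent.L7h31.CR

/-- a set described by the vanishing of several functionals is a face -/
theorem face_of (hPL : S_PL) {ι : Type} [Fintype ι] (P A : Set (Hyp ι)) (α : ℝ) (β : ι → ℝ) (γ : ℝ)
    (σ w : ι → ℝ) (hne : A.Nonempty) (h1 : ∀ z ∈ P, Phi α β γ z ≤ 0)
    (h2 : ∀ z ∈ P, ∀ i, σ i * (z.x i - w i) ≤ 0)
    (hA : ∀ z, z ∈ A ↔ z ∈ P ∧ Phi α β γ z = 0 ∧ ∀ i, σ i * (z.x i - w i) = 0)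
    (hnz : α ≠ 0 ∨ (fun i => β i + σ i) ≠ 0) : IsFace P A := by
  have hsum : ∀ z : Hyp ι, Phi α (fun i => β i + σ i) (γ - ∑ i, σ i * w i) z =
      Phi α β γ z + ∑ i, σ i * (z.x i - w i) := by
    intro z
    unfold Phi
    simp only [mul_sub, add_mul, Finset.sum_add_distrib, Finset.sum_sub_distrib]
    ring
  obtain ⟨z0, hz0⟩ := hne
  have hz1 := (hA z0).1 hz0
  obtain ⟨p, q, hpq, hHS, hE⟩ := hPL ι α (fun i => β i + σ i) (γ - ∑ i, σ i * w i) hnz
    ⟨z0, by rw [hsum, hz1.2.1, Finset.sum_eq_zero (fun i _ => hz1.2.2 i), add_zero]⟩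
  have hs : ∀ z ∈ P, ∑ i, σ i * (z.x i - w i) ≤ 0 := fun z hz =>
    Finset.sum_nonpos (fun i _ => h2 z hz i)
  refine ⟨p, q, hpq, ?_, ?_⟩
  · intro z hz
    rw [hHS, hsum]
    linarith [h1 z hz, hs z hz]
  · ext z
    rw [hA]
    constructor
    · rintro ⟨hP, ha, hb⟩
      refine ⟨hP, ?_⟩
      rw [hE, hsum, ha, Finset.sum_eq_zero (fun i _ => hb i), add_zero]
    · rintro ⟨hP, he⟩
      rw [hE, hsum] at he
      have e1 := h1 z hP
      have e2 := hs z hP
      refine ⟨hP, by linarith, ?_⟩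
      have e3 : ∑ i, σ i * (z.x i - w i) = 0 := by linarith
      intro i
      exact (Finset.sum_eq_zero_iff_of_nonpos (fun i _ => h2 z hP i)).1 e3 i (Finset.mem_univ i)

/-- one coordinate, the face of the interval `[a, a + 1]` -/
theorem one1 {s x0 : ℝ} (hs : 0 < s) {a u v : ℤ} (huv : u < v) (h1 : a * s ≤ x0)
    (h2 : x0 ≤ (a + 1) * s) (h3 : u * s ≤ x0) (h4 : x0 ≤ v * s) {x : ℝ} (g1 : a * s ≤ x)
    (g2 : x ≤ (a + 1) * s) :
    (if a + 1 = u then (1 : ℝ) else if a = v then -1 else 0) *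
      (x - if a + 1 = u then (a + 1) * s else a * s) ≤ 0 ∧
    ((u * s ≤ x ∧ x ≤ v * s) ↔ (if a + 1 = u then (1 : ℝ) else if a = v then -1 else 0) *
      (x - if a + 1 = u then (a + 1) * s else a * s) = 0) := by
  by_cases c1 : a + 1 = u
  · rw [if_pos c1, if_pos c1]
    have hu : (u : ℝ) = a + 1 := by rw [← c1]; push_cast; ring
    have hv : (a : ℝ) + 1 ≤ v := by
      rw [← hu]
      exact_mod_cast huv.le
    refine ⟨by linarith, ?_⟩
    rw [hu]
    constructor
    · rintro ⟨k1, _⟩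
      linarith
    · intro k
      have : x = (a + 1) * s := by linarith
      rw [this]
      exact ⟨le_refl _, mul_le_mul_of_nonneg_right hv hs.le⟩
  · rw [if_neg c1, if_neg c1]
    by_cases c2 : a = v
    · rw [if_pos c2]
      have hu : (u : ℝ) ≤ a := by
        rw [c2]
        exact_mod_cast huv.le
      rw [← c2]
      refine ⟨by linarith, ?_⟩
      constructor
      · rintro ⟨_, k2⟩
        linarith
      · intro k
        have : x = a * s := by linarith
        rw [this]
        exact ⟨mul_le_mul_of_nonneg_right hu hs.le, le_refl _⟩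
    · rw [if_neg c2]
      simp only [zero_mul, le_refl, true_and, iff_true]
      have k1 : u ≤ a + 1 := by
        have : (u : ℝ) * s ≤ (a + 1) * s := h3.trans h2
        have := le_of_mul_le_mul_right this hs
        exact_mod_cast this
      have k2 : a ≤ v := by
        have : (a : ℝ) * s ≤ v * s := h1.trans h4
        have := le_of_mul_le_mul_right this hs
        exact_mod_cast this
      have k3 : u ≤ a := by omega
      have k4 : a + 1 ≤ v := by omega
      constructor
      · exact (mul_le_mul_of_nonneg_right (by exact_mod_cast k3) hs.le).trans g1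
      · exact g2.trans (mul_le_mul_of_nonneg_right (by exact_mod_cast k4) hs.le)

theorem s_FACE0 (hPL : S_PL) (hSD : S_SD) : S_FACE0 := by
  intro k A l a a' haa
  by_cases hn : (tile A l a ∩ tile A l a').Nonempty
  · right
    obtain ⟨z0, hz0, hz0'⟩ := hn
    have hs : ∀ i, 0 < sd A i l := fun i => (hSD k A i l).1
    have key : ∀ (i : ZMod (k + 1)) (z : Hyp (ZMod (k + 1))), z ∈ tile A l a →
        _ := fun i z hz => one1 (hs i) (a := a i) (u := a' i) (v := a' i + 1) (by omega)
      (hz0.1 i).1 (hz0.1 i).2 (hz0'.1 i).1 (by push_cast; exact (hz0'.1 i).2) (hz.1 i).1 (hz.1 i).2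
    refine face_of hPL (tile A l a) (tile A l a ∩ tile A l a') 0 0 0
      (fun i => if a i + 1 = a' i then (1 : ℝ) else if a i = a' i + 1 then -1 else 0)
      (fun i => if a i + 1 = a' i then (a i + 1) * sd A i l else a i * sd A i l)
      ⟨z0, hz0, hz0'⟩ ?_ ?_ ?_ ?_
    · intro z _
      simp [Phi]
    · intro z hz i
      exact (key i z hz).1
    · intro z
      constructor
      · rintro ⟨hz, hz'⟩
        refine ⟨hz, by simp [Phi], ?_⟩
        intro i
        refine ((key i z hz).2).1 ⟨(hz'.1 i).1, ?_⟩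
        push_cast
        exact (hz'.1 i).2
      · rintro ⟨hz, _, hw⟩
        refine ⟨hz, ?_, hz.2.1, hz.2.2⟩
        intro i
        have := ((key i z hz).2).2 (hw i)
        push_cast at this
        exact this
    · right
      obtain ⟨i, hi⟩ := Function.ne_iff.1 haa
      intro h0
      have h1 := congrFun h0 i
      simp only [Pi.zero_apply, zero_add] at h1
      have c1 : a i ≤ a' i + 1 := by
        have : (a i : ℝ) * sd A i l ≤ (a' i + 1) * sd A i l := (hz0.1 i).1.trans (hz0'.1 i).2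
        have := le_of_mul_le_mul_right this (hs i)
        exact_mod_cast this
      have c2 : a' i ≤ a i + 1 := by
        have : (a' i : ℝ) * sd A i l ≤ (a i + 1) * sd A i l := (hz0'.1 i).1.trans (hz0.1 i).2
        have := le_of_mul_le_mul_right this (hs i)
        exact_mod_cast this
      by_cases c3 : a i + 1 = a' i
      · rw [if_pos c3] at h1
        exact one_ne_zero h1
      · have c4 : a i = a' i + 1 := by omega
        rw [if_neg c3, if_pos c4] at h1
        norm_num at h1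
  · left
    exact Set.not_nonempty_iff_eq_empty.1 hn

theorem gf_box {t : ℝ} {n : ℤ} (h1 : (n : ℝ) ≤ t) (h2 : t ≤ n + 1) :
    gf t = (t - n) * (n + 1 - t) := by
  unfold gf
  rcases h2.lt_or_eq with h | h
  · have hf : ⌊t⌋ = n := Int.floor_eq_iff.2 ⟨h1, h⟩
    have : Int.fract t = t - n := by rw [Int.fract, hf]
    rw [this]
    ring
  · have : Int.fract t = 0 := by
      rw [h]
      have : ((n : ℝ) + 1) = ((n + 1 : ℤ) : ℝ) := by push_cast; ring
      rw [this, Int.fract_intCast]
    rw [this, h]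
    ring

/-- the term in one coordinate -/
theorem term_box {s x : ℝ} (hs : 0 < s) {n : ℤ} (h1 : n * s ≤ x) (h2 : x ≤ (n + 1) * s) :
    s ^ 2 * gf (x / s) = (x - n * s) * ((n + 1) * s - x) := by
  rw [gf_box (n := n) ((le_div_iff₀ hs).2 h1) ((div_le_iff₀ hs).2 h2)]
  field_simp

theorem GG_box {k : ℕ} (A : Par k) (l : ℤ) (hs : ∀ i, 0 < sd A i l) (x : ZMod (k + 1) → ℝ)
    (b : ZMod (k + 1) → ℤ) (h : ∀ i, b i * sd A i l ≤ x i ∧ x i ≤ (b i + 1) * sd A i l) :
    GG A l x = A.c * A.lam ^ (2 * l) + ∑ i, (x i - b i * sd A i l) * ((b i + 1) * sd A i l - x i) := by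
  unfold GG
  congr 1
  exact Finset.sum_congr rfl fun i _ => term_box (hs i) (h i).1 (h i).2

theorem quad {k : ℕ} (A : Par k) (l : ℤ) (C : ℝ) (b : ZMod (k + 1) → ℤ) (z : Hyp (ZMod (k + 1))) :
    Phi 1 (fun i => -((2 * b i + 1) * sd A i l)) ((∑ i, b i * (b i + 1) * sd A i l ^ 2) - C) z =
      z.y ^ 2 - (C + ∑ i, (z.x i - b i * sd A i l) * ((b i + 1) * sd A i l - z.x i)) := by
  unfold Phi
  have h : ∑ i, z.x i ^ 2 + ∑ i, -((2 * (b i : ℝ) + 1) * sd A i l) * z.x i +
      ∑ i, (b i : ℝ) * (b i + 1) * sd A i l ^ 2 =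
      - ∑ i, (z.x i - b i * sd A i l) * ((b i + 1) * sd A i l - z.x i) := by
    rw [← Finset.sum_add_distrib, ← Finset.sum_add_distrib, ← Finset.sum_neg_distrib]
    exact Finset.sum_congr rfl fun i _ => by ring
  linear_combination h

theorem quad' {k : ℕ} (A : Par k) (l : ℤ) (C : ℝ) (b : ZMod (k + 1) → ℤ) (z : Hyp (ZMod (k + 1))) :
    Phi (-1) (fun i => (2 * b i + 1) * sd A i l) (C - ∑ i, b i * (b i + 1) * sd A i l ^ 2) z =
      (C + ∑ i, (z.x i - b i * sd A i l) * ((b i + 1) * sd A i l - z.x i)) - z.y ^ 2 := by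
  have h := quad A l C b z
  unfold Phi at *
  simp only [neg_mul, Finset.sum_neg_distrib] at h
  linear_combination -h

/-- the ends of the side of a box of the level `l + 1` in units of the level `l` -/
def lo {k : ℕ} (l : ℤ) (a : ZMod (k + 1) → ℤ) (i : ZMod (k + 1)) : ℤ :=
  if i = (l : ZMod (k + 1)) then 2 * a i else a i

/-- see `lo` -/
def hi {k : ℕ} (l : ℤ) (a : ZMod (k + 1) → ℤ) (i : ZMod (k + 1)) : ℤ :=
  if i = (l : ZMod (k + 1)) then 2 * a i + 2 else a i + 1

theorem lo_lt_hi {k : ℕ} (l : ℤ) (a : ZMod (k + 1) → ℤ) (i : ZMod (k + 1)) : lo l a i < hi l a i := by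
  unfold lo hi
  split_ifs <;> omega

theorem lo_hi (hSD : S_SD) {k : ℕ} (A : Par k) (l : ℤ) (a : ZMod (k + 1) → ℤ) (i : ZMod (k + 1)) :
    (a i : ℝ) * sd A i (l + 1) = lo l a i * sd A i l ∧
      ((a i : ℝ) + 1) * sd A i (l + 1) = hi l a i * sd A i l := by
  obtain ⟨-, -, h1, h2, -⟩ := hSD k A i l
  unfold lo hi
  by_cases h : i = (l : ZMod (k + 1))
  · rw [if_pos h, if_pos h, h1 h]
    push_cast
    constructor <;> ring
  · rw [if_neg h, if_neg h, h2 h]
    push_cast
    exact ⟨rfl, rfl⟩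

theorem box_iff (hSD : S_SD) {k : ℕ} (A : Par k) (l : ℤ) (a : ZMod (k + 1) → ℤ)
    (x : ZMod (k + 1) → ℝ) : (∀ i, a i * sd A i (l + 1) ≤ x i ∧ x i ≤ (a i + 1) * sd A i (l + 1)) ↔
      ∀ i, lo l a i * sd A i l ≤ x i ∧ x i ≤ hi l a i * sd A i l := by
  refine forall_congr' fun i => ?_
  rw [(lo_hi hSD A l a i).1, (lo_hi hSD A l a i).2]

theorem GG_lt (hGAP : S_GAP) {k : ℕ} (A : Par k) (l : ℤ) (x : ZMod (k + 1) → ℝ) :
    GG A (l - 1) x < GG A l x := by
  obtain ⟨-, h1, h2, h3⟩ := hGAP k A l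
  linarith [h1 x, h2 x]

theorem s_FACE1 (hPL : S_PL) (hSD : S_SD) (hGAP : S_GAP) : S_FACE1 := by
  intro k A l a a'
  by_cases hn : (tile A l a ∩ tile A (l + 1) a').Nonempty
  · right
    obtain ⟨z0, hz0, hz0'⟩ := hn
    have hs : ∀ i, 0 < sd A i l := fun i => (hSD k A i l).1
    have hb0 := (box_iff hSD A l a' z0.x).1 hz0'.1
    have key : ∀ (i : ZMod (k + 1)) (z : Hyp (ZMod (k + 1))), z ∈ tile A l a →
        _ := fun i z hz => one1 (hs i) (a := a i) (lo_lt_hi l a' i)
      (hz0.1 i).1 (hz0.1 i).2 (hb0 i).1 (hb0 i).2 (hz.1 i).1 (hz.1 i).2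
    have hq : ∀ z ∈ tile A l a, Phi 1 (fun i => -((2 * a i + 1) * sd A i l))
        ((∑ i, a i * (a i + 1) * sd A i l ^ 2) - A.c * A.lam ^ (2 * l)) z =
          z.y ^ 2 - GG A l z.x := by
      intro z hz
      rw [quad, GG_box A l hs z.x a hz.1]
    refine face_of hPL (tile A l a) (tile A l a ∩ tile A (l + 1) a') 1
      (fun i => -((2 * a i + 1) * sd A i l))
      ((∑ i, a i * (a i + 1) * sd A i l ^ 2) - A.c * A.lam ^ (2 * l))
      (fun i => if a i + 1 = lo l a' i then (1 : ℝ) else if a i = hi l a' i then -1 else 0)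
      (fun i => if a i + 1 = lo l a' i then (a i + 1) * sd A i l else a i * sd A i l)
      ⟨z0, hz0, hz0'⟩ ?_ ?_ ?_ (Or.inl one_ne_zero)
    · intro z hz
      rw [hq z hz]
      linarith [hz.2.2]
    · intro z hz i
      exact (key i z hz).1
    · intro z
      constructor
      · rintro ⟨hz, hz'⟩
        have h1 := hz'.2.1
        rw [add_sub_cancel_right] at h1
        refine ⟨hz, ?_, ?_⟩
        · rw [hq z hz]
          linarith [hz.2.2]
        · intro i
          exact ((key i z hz).2).1 ((box_iff hSD A l a' z.x).1 hz'.1 i)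
      · rintro ⟨hz, he, hw⟩
        rw [hq z hz] at he
        have h3 := GG_lt hGAP A (l + 1) z.x
        rw [add_sub_cancel_right] at h3
        refine ⟨hz, (box_iff hSD A l a' z.x).2 fun i => ((key i z hz).2).2 (hw i), ?_, ?_⟩
        · rw [add_sub_cancel_right]
          linarith
        · linarith
  · left
    exact Set.not_nonempty_iff_eq_empty.1 hn

/-- one coordinate, seen from the upper tile -/
theorem one2 {s x0 : ℝ} (hs : 0 < s) {a u v : ℤ} (huv : u < v) (h1 : a * s ≤ x0)
    (h2 : x0 ≤ (a + 1) * s) (h3 : u * s ≤ x0) (h4 : x0 ≤ v * s) {x : ℝ} (g1 : u * s ≤ x)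
    (g2 : x ≤ v * s) :
    (if a = v then (1 : ℝ) else if a + 1 = u then -1 else 0) *
      (x - if a = v then v * s else u * s) ≤ 0 ∧
    ((a * s ≤ x ∧ x ≤ (a + 1) * s) ↔
      (((if a = v then v - 1 else if a + 1 = u then u else a : ℤ) : ℝ) * s ≤ x ∧
        x ≤ (((if a = v then v - 1 else if a + 1 = u then u else a : ℤ) : ℝ) + 1) * s) ∧
      (if a = v then (1 : ℝ) else if a + 1 = u then -1 else 0) *
        (x - if a = v then v * s else u * s) = 0) := by
  by_cases c1 : a = v
  · simp only [if_pos c1]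
    rw [c1]
    push_cast
    refine ⟨by linarith, ?_⟩
    constructor
    · rintro ⟨k1, _⟩
      exact ⟨⟨by linarith, by linarith⟩, by linarith⟩
    · rintro ⟨_, k⟩
      have : x = v * s := by linarith
      rw [this]
      exact ⟨le_refl _, by linarith⟩
  · simp only [if_neg c1]
    by_cases c2 : a + 1 = u
    · simp only [if_pos c2]
      have hu : (a : ℝ) + 1 = u := by rw [← c2]; push_cast; ring
      rw [hu]
      refine ⟨by linarith, ?_⟩
      constructor
      · rintro ⟨_, k2⟩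
        exact ⟨⟨by linarith, by linarith⟩, by linarith⟩
      · rintro ⟨_, k⟩
        have : x = u * s := by linarith
        rw [this]
        refine ⟨?_, le_refl _⟩
        rw [← hu]
        linarith
    · simp only [if_neg c2]
      simp

theorem s_FACE2 (hPL : S_PL) (hSD : S_SD) (hGF : S_GF) (hGAP : S_GAP) : S_FACE2 := by
  intro k A l a a'
  by_cases hn : (tile A l a ∩ tile A (l + 1) a').Nonempty
  · right
    obtain ⟨z0, hz0, hz0'⟩ := hn
    have hs : ∀ i, 0 < sd A i l := fun i => (hSD k A i l).1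
    have hb0 := (box_iff hSD A l a' z0.x).1 hz0'.1
    have key : ∀ (i : ZMod (k + 1)) (z : Hyp (ZMod (k + 1))), z ∈ tile A (l + 1) a' →
        _ := fun i z hz => one2 (hs i) (a := a i) (lo_lt_hi l a' i)
      (hz0.1 i).1 (hz0.1 i).2 (hb0 i).1 (hb0 i).2 ((box_iff hSD A l a' z.x).1 hz.1 i).1
      ((box_iff hSD A l a' z.x).1 hz.1 i).2
    obtain ⟨b, hb⟩ : ∃ b : ZMod (k + 1) → ℤ, b = fun i => if a i = hi l a' i then hi l a' i - 1
      else if a i + 1 = lo l a' i then lo l a' i else a i := ⟨_, rfl⟩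
    have hle : ∀ (z : Hyp (ZMod (k + 1))) (i : ZMod (k + 1)),
        (z.x i - b i * sd A i l) * ((b i + 1) * sd A i l - z.x i) ≤
          sd A i l ^ 2 * gf (z.x i / sd A i l) ∧
        ((z.x i - b i * sd A i l) * ((b i + 1) * sd A i l - z.x i) =
          sd A i l ^ 2 * gf (z.x i / sd A i l) →
            b i * sd A i l ≤ z.x i ∧ z.x i ≤ (b i + 1) * sd A i l) := by
      intro z i
      obtain ⟨g1, g2⟩ := hGF.2.2.1 (z.x i / sd A i l) (b i)
      have e : (z.x i - b i * sd A i l) * ((b i + 1) * sd A i l - z.x i) =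
          sd A i l ^ 2 * ((z.x i / sd A i l - b i) * (b i + 1 - z.x i / sd A i l)) := by
        have := (hs i).ne'
        field_simp
      rw [e]
      refine ⟨mul_le_mul_of_nonneg_left g1 (sq_nonneg _), ?_⟩
      intro h
      have h' := mul_left_cancel₀ (pow_ne_zero 2 (hs i).ne') h
      have h2 := g2.1 h'
      exact ⟨(le_div_iff₀ (hs i)).1 h2.1, (div_le_iff₀ (hs i)).1 h2.2⟩
    have hq1 : ∀ z : Hyp (ZMod (k + 1)), Phi (-1) (fun i => (2 * b i + 1) * sd A i l)
        (A.c * A.lam ^ (2 * l) - ∑ i, b i * (b i + 1) * sd A i l ^ 2) z ≤ GG A l z.x - z.y ^ 2 := by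
      intro z
      rw [quad']
      unfold GG
      linarith [Finset.sum_le_sum (fun i (_ : i ∈ Finset.univ) => (hle z i).1)]
    have hq2 : ∀ z : Hyp (ZMod (k + 1)), (∀ i, b i * sd A i l ≤ z.x i ∧
        z.x i ≤ (b i + 1) * sd A i l) → Phi (-1) (fun i => (2 * b i + 1) * sd A i l)
        (A.c * A.lam ^ (2 * l) - ∑ i, b i * (b i + 1) * sd A i l ^ 2) z = GG A l z.x - z.y ^ 2 := by
      intro z hz
      rw [quad', GG_box A l hs z.x b hz]
    have hlow : ∀ z ∈ tile A (l + 1) a', GG A l z.x ≤ z.y ^ 2 := by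
      intro z hz
      have := hz.2.1
      rwa [add_sub_cancel_right] at this
    refine face_of hPL (tile A (l + 1) a') (tile A l a ∩ tile A (l + 1) a') (-1)
      (fun i => (2 * b i + 1) * sd A i l)
      (A.c * A.lam ^ (2 * l) - ∑ i, b i * (b i + 1) * sd A i l ^ 2)
      (fun i => if a i = hi l a' i then (1 : ℝ) else if a i + 1 = lo l a' i then -1 else 0)
      (fun i => if a i = hi l a' i then hi l a' i * sd A i l else lo l a' i * sd A i l)
      ⟨z0, hz0, hz0'⟩ ?_ ?_ ?_ (Or.inl (by norm_num))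
    · intro z hz
      linarith [hq1 z, hlow z hz]
    · intro z hz i
      exact (key i z hz).1
    · intro z
      constructor
      · rintro ⟨hz, hz'⟩
        have hB : ∀ i, _ := fun i => ((key i z hz').2).1 (hz.1 i)
        refine ⟨hz', ?_, fun i => (hB i).2⟩
        rw [hq2 z (fun i => by rw [hb]; exact (hB i).1)]
        linarith [hz.2.2, hlow z hz']
      · rintro ⟨hz', he, hw⟩
        have e1 := hq1 z
        have e2 := hlow z hz'
        have e3 : GG A l z.x = z.y ^ 2 := by linarith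
        have e4 : ∑ i, (z.x i - b i * sd A i l) * ((b i + 1) * sd A i l - z.x i) =
            ∑ i, sd A i l ^ 2 * gf (z.x i / sd A i l) := by
          rw [quad'] at he
          unfold GG at e3
          linarith
        have e5 := (Finset.sum_eq_sum_iff_of_le (fun i _ => (hle z i).1)).1 e4
        have hB : ∀ i, b i * sd A i l ≤ z.x i ∧ z.x i ≤ (b i + 1) * sd A i l := fun i =>
          (hle z i).2 (e5 i (Finset.mem_univ i))
        refine ⟨⟨?_, ?_, ?_⟩, hz'⟩
        · intro i
          refine ((key i z hz').2).2 ⟨?_, hw i⟩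
          have := hB i
          rw [hb] at this
          exact this
        · linarith [GG_lt hGAP A l z.x]
        · linarith
  · left
    exact Set.not_nonempty_iff_eq_empty.1 hn

end Pool.Agent.L7h91.CR
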